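import Mathlib

open Cardinal Set

namespace Pool.Agent.Results.MP_d56e90_lc.Symmetric

universe u

theorem pigeon {H : Type u} {r : ℕ} (κ : Cardinal.{u}) (hκ : ℵ₀ ≤ κ) (S : Set H)
    (hS : κ ≤ #S) (g : H → Fin r) : ∃ i, κ ≤ #{c | c ∈ S ∧ g c = i} := by
  by_contra hcon
  push Not at hcon
  have h1 : S = ⋃ i ∈ (Finset.univ : Finset (Fin r)), {c | c ∈ S ∧ g c = i} := by
    ext c; simp
  have h2 : ∀ F : Finset (Fin r), #(⋃ i ∈ F, {c | c ∈ S ∧ g c = i} : Set H) < κ := by
    intro F
    induction F using Finset.induction_on with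
    | empty => simpa using lt_of_lt_of_le aleph0_pos hκ
    | insert a F _ ih =>
      rw [Finset.set_biUnion_insert]
      exact lt_of_le_of_lt (mk_union_le _ _) (add_lt_of_lt hκ (hcon a) ih)
  have h3 := h2 Finset.univ
  rw [← h1] at h3
  exact absurd hS (not_le.mpr h3)

theorem key_inf {H : Type u} {r : ℕ} (κ : Cardinal.{u}) (hκ : ℵ₀ ≤ κ) (hH : κ < #H)
    (f : H → H → Fin r) : ∃ a b i, κ ≤ #{c | f a c = i ∧ f c b = i} := by
  classical
  let X : (Fin r → Option H) → Set H := fun t => {c | ∀ i a, t i = some a → f a c = i}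
  have hS : ∀ t, ∃ S : Set H, #S ≤ κ ∧ (X t ⊆ S ∨ (S ⊆ X t ∧ κ ≤ #S)) := by
    intro t
    by_cases h : #(X t) ≤ κ
    · exact ⟨X t, h, Or.inl subset_rfl⟩
    · obtain ⟨S, hS1, hS2⟩ := le_mk_iff_exists_subset.mp (not_le.mp h).le
      exact ⟨S, hS2.le, Or.inr ⟨hS1, hS2.ge⟩⟩
  choose S hS1 hS2 using hS
  let T : Set H → Set (Fin r → Option H) := fun M => {t | ∀ i a, t i = some a → a ∈ M}
  have hT : ∀ M : Set H, #M ≤ κ → #(T M) ≤ κ := by
    intro M hM
    let φ : (Fin r → Option M) → (Fin r → Option H) := fun s i => (s i).map Subtype.val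
    have hsub : T M ⊆ range φ := by
      intro t ht
      refine ⟨fun i => if h : ∃ a, t i = some a then some ⟨h.choose, ht i _ h.choose_spec⟩
        else none, ?_⟩
      funext i
      by_cases h : ∃ a, t i = some a
      · simp only [φ, dif_pos h, Option.map_some]
        exact h.choose_spec.symm
      · simp only [φ, dif_neg h, Option.map_none]
        cases hti : t i with
        | none => rfl
        | some a => exact absurd ⟨a, hti⟩ h
    refine (mk_le_mk_of_subset hsub).trans (mk_range_le.trans ?_)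
    have h1 : #(Option M) ≤ κ := by
      rw [mk_option]
      exact add_le_of_le hκ hM (le_trans (by simp) hκ)
    have h2 : #(Fin r → Option M) = #(Option M) ^ r := by simp
    rw [h2]
    exact le_trans (power_le_power_right h1) (power_nat_le hκ)
  let M : ℕ → Set H := fun n => Nat.rec ∅ (fun _ N => N ∪ ⋃ t ∈ T N, S t) n
  have hMs : ∀ n, M (n + 1) = M n ∪ ⋃ t ∈ T (M n), S t := fun n => rfl
  have hMc : ∀ n : ℕ, #(↥(M n)) ≤ κ := by
    intro n
    induction n with
    | zero => simp [M]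
    | succ n ih =>
      rw [hMs]
      refine (mk_union_le _ _).trans (add_le_of_le hκ ih ?_)
      refine (mk_biUnion_le _ _).trans ?_
      refine le_trans (mul_le_mul' (hT _ ih) (ciSup_le' fun t => hS1 t.1)) ?_
      rw [mul_eq_self hκ]
  have hMm : Monotone M := monotone_nat_of_le_succ fun n => by
    rw [hMs]; exact subset_union_left
  have hU : #(⋃ n, M n) ≤ κ := by
    refine (mk_iUnion_le_lift (f := M)).trans' (by simp) |>.trans ?_
    simp only [lift_uzero, mk_nat, lift_aleph0]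
    refine le_trans (mul_le_mul' hκ (ciSup_le' fun n => hMc n)) ?_
    rw [mul_eq_self hκ]
  obtain ⟨b, hb⟩ : ∃ b, b ∉ ⋃ n, M n := by
    by_contra hcon
    push Not at hcon
    have : (⋃ n, M n) = Set.univ := eq_univ_of_forall hcon
    rw [this, mk_univ] at hU
    exact absurd hH (not_lt.mpr hU)
  let t : Fin r → Option H := fun i =>
    if h : ∃ a, a ∈ (⋃ n, M n) ∧ f a b = i then some h.choose else none
  have ht1 : ∀ i a, t i = some a → a ∈ (⋃ n, M n) ∧ f a b = i := by
    intro i a h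
    by_cases h' : ∃ a, a ∈ (⋃ n, M n) ∧ f a b = i
    · simp only [t, dif_pos h', Option.some.injEq] at h
      rw [← h]; exact h'.choose_spec
    · simp [t, dif_neg h'] at h
  have hn : ∀ i, ∃ n, ∀ a, t i = some a → a ∈ M n := by
    intro i
    cases hti : t i with
    | none => exact ⟨0, fun a h => by simp at h⟩
    | some a =>
      obtain ⟨n, hn⟩ := mem_iUnion.mp (ht1 i a hti).1
      exact ⟨n, fun a' h => by simp only [Option.some.injEq] at h; rw [← h]; exact hn⟩
  choose n hn using hn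
  let N : ℕ := Finset.univ.sup n
  have htT : t ∈ T (M N) := fun i a h =>
    hMm (Finset.le_sup (f := n) (Finset.mem_univ i)) (hn i a h)
  have hSM : S t ⊆ ⋃ n, M n := by
    intro c hc
    refine mem_iUnion.mpr ⟨N + 1, ?_⟩
    rw [hMs]
    exact Or.inr (mem_biUnion htT hc)
  have hbX : b ∈ X t := fun i a h => (ht1 i a h).2
  rcases hS2 t with h | ⟨h1, h2⟩
  · exact absurd (hSM (h hbX)) hb
  · obtain ⟨i, hi⟩ := pigeon κ hκ (S t) h2 (fun c => f c b)
    have hne : ({c | c ∈ S t ∧ f c b = i} : Set H).Nonempty := by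
      rw [← Set.nonempty_coe_sort, ← mk_ne_zero_iff]
      exact (lt_of_lt_of_le (lt_of_lt_of_le aleph0_pos hκ) hi).ne'
    obtain ⟨c0, hc0⟩ := hne
    have hex : ∃ a, a ∈ (⋃ n, M n) ∧ f a b = i := ⟨c0, hSM hc0.1, hc0.2⟩
    have hti : t i = some hex.choose := by simp only [t, dif_pos hex]
    refine ⟨hex.choose, b, i, hi.trans (mk_le_mk_of_subset ?_)⟩
    intro c hc
    exact ⟨h1 hc.1 i _ hti, hc.2⟩

theorem key_fin {H : Type u} [Infinite H] {r : ℕ} (k : ℕ)
    (f : H → H → Fin r) : ∃ a b i, (k : Cardinal.{u}) ≤ #{c | f a c = i ∧ f c b = i} := by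
  classical
  let U : Ultrafilter H := Filter.hyperfilter H
  have hu : ∀ a, ∃ i, {c | f a c = i} ∈ U := by
    intro a
    have h1 : (⋃ i ∈ (univ : Set (Fin r)), {c | f a c = i}) ∈ U := by
      have : (⋃ i ∈ (univ : Set (Fin r)), {c | f a c = i}) = Set.univ := by ext c; simp
      rw [this]; exact Filter.univ_mem
    obtain ⟨i, _, hi⟩ := (Ultrafilter.finite_biUnion_mem_iff (toFinite _)).mp h1
    exact ⟨i, hi⟩
  choose u hu using hu
  have ha : ∀ i : range u, ∃ a, u a = i := fun i => i.2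
  choose a ha using ha
  have hX : (⋂ i : range u, {c | f (a i) c = i}) ∈ U := by
    refine Filter.iInter_mem.mpr fun i => ?_
    have := hu (a i)
    rwa [ha i] at this
  have hXinf : (⋂ i : range u, {c | f (a i) c = i}).Infinite := by
    intro hfin
    exact (Filter.notMem_hyperfilter_of_finite hfin) hX
  obtain ⟨i, hi⟩ := pigeon ℵ₀ le_rfl _ (aleph0_le_mk_iff.mpr hXinf.to_subtype) u
  obtain ⟨F, hF, hFc⟩ := (Set.infinite_coe_iff.mp (aleph0_le_mk_iff.mp hi)).exists_subset_card_eq (k + 1)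
  obtain ⟨c0, hc0⟩ : F.Nonempty := Finset.card_pos.mp (by omega)
  have hir : i ∈ range u := ⟨c0, (hF hc0).2⟩
  have hB : (⋂ c ∈ F, {b | f c b = i}) ∈ U := by
    refine (Filter.biInter_finset_mem F).mpr fun c hc => ?_
    have := hu c
    rwa [(hF hc).2] at this
  obtain ⟨b, hb⟩ := Ultrafilter.nonempty_of_mem hB
  refine ⟨a ⟨i, hir⟩, b, i, ?_⟩
  have hsub : (F : Set H) ⊆ {c | f (a ⟨i, hir⟩) c = i ∧ f c b = i} := by
    intro c hc
    refine ⟨mem_iInter.mp (hF hc).1 ⟨i, hir⟩, ?_⟩
    exact mem_iInter₂.mp hb c hc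
  refine le_trans ?_ (mk_le_mk_of_subset hsub)
  simp only [Finset.coe_sort_coe, mk_fintype, Fintype.card_coe, hFc]
  exact_mod_cast Nat.le_succ k

theorem key {H : Type u} [Infinite H] {r : ℕ} (κ : Cardinal.{u}) (hH : κ < #H)
    (f : H → H → Fin r) : ∃ a b i, κ ≤ #{c | f a c = i ∧ f c b = i} := by
  by_cases hκ : ℵ₀ ≤ κ
  · exact key_inf κ hκ hH f
  · obtain ⟨k, rfl⟩ := lt_aleph0.mp (not_le.mp hκ)
    exact key_fin k f

theorem result (G : Type u) [AddCommGroup G] [Infinite G] (κ : Cardinal.{u}) (hκ : κ < #G)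
    (r : ℕ) (χ : G → Fin r) :
    ∃ A : Set G, (∃ g : G, A = (fun x => 2 • g - x) '' A) ∧ (∀ x ∈ A, ∀ y ∈ A, χ x = χ y) ∧
      κ ≤ #A := by
  classical
  let d : G →+ G := nsmulAddMonoidHom 2
  have hG : ℵ₀ ≤ #G := aleph0_le_mk G
  have hmul : #G = #d.range * #d.ker := by
    have e1 := AddSubgroup.addGroupEquivQuotientProdAddSubgroup (s := d.ker)
    have e2 := (QuotientAddGroup.quotientKerEquivRange d).toEquiv
    rw [mk_congr e1, mk_prod, mk_congr e2]; simp
  by_cases hker : #d.ker = #G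
  · have h1 : max κ ℵ₀ ≤ #(d.ker : Set G) := by
      have : #(d.ker : Set G) = #G := hker
      rw [this]; exact max_le hκ.le hG
    obtain ⟨i, hi⟩ := pigeon (max κ ℵ₀) (le_max_right _ _) _ h1 χ
    refine ⟨_, ⟨0, ?_⟩, ?_, (le_max_left _ _).trans hi⟩
    · have hneg : ∀ x : G, x ∈ (d.ker : Set G) → 2 • (0 : G) - x = x := by
        intro x hx
        have h2 : 2 • x = 0 := hx
        rw [two_nsmul] at h2
        simp only [smul_zero, zero_sub]
        exact neg_eq_of_add_eq_zero_left h2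
      ext x
      constructor
      · intro hx; exact ⟨x, hx, hneg x hx.1⟩
      · rintro ⟨y, hy, rfl⟩
        have := hneg y hy.1
        simp only [this]; exact hy
    · intro x hx y hy; rw [hx.2, hy.2]
  · have hran : #d.range = #G := by
      have hk : #d.ker < #G := lt_of_le_of_ne (mk_set_le _) hker
      by_contra hne
      have hr : #d.range < #G := lt_of_le_of_ne (mk_set_le _) hne
      exact absurd (mul_lt_of_lt hG hr hk) (by rw [← hmul]; exact lt_irrefl _)
    have : Infinite d.range := by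
      rw [← aleph0_le_mk_iff, hran]; exact hG
    obtain ⟨a, b, i, hi⟩ := key (H := d.range) κ (by rw [hran]; exact hκ)
      (fun a c => χ (c.1 - a.1))
    obtain ⟨ga, hga⟩ := a.2
    obtain ⟨gb, hgb⟩ := b.2
    have hs : 2 • (gb - ga) = b.1 - a.1 := by
      rw [← hga, ← hgb, nsmul_sub]; rfl
    refine ⟨{x | χ x = i ∧ χ (b.1 - a.1 - x) = i}, ⟨gb - ga, ?_⟩, ?_, ?_⟩
    · rw [hs]
      ext x
      constructor
      · intro hx
        refine ⟨b.1 - a.1 - x, ⟨hx.2, ?_⟩, by simp⟩
        simpa using hx.1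
      · rintro ⟨y, hy, rfl⟩
        refine ⟨hy.2, ?_⟩
        simpa using hy.1
    · intro x hx y hy; rw [hx.1, hy.1]
    · refine hi.trans (mk_le_of_injective
        (f := fun c => ⟨c.1.1 - a.1, c.2.1, ?_⟩) ?_)
      · have := c.2.2
        simpa using this
      · intro c c' h
        simp only [Subtype.mk.injEq, sub_left_inj] at h
        exact Subtype.ext (Subtype.ext h)

end Pool.Agent.Results.MP_d56e90_lc.Symmetric
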